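import Pool.Agent.Q8.Amalg.Groups

/-!
`N₁ = W ⋊ ℝ` is nilpotent of class larger than `n = deg W`.
-/

noncomputable section

namespace Q8.Amalg

open Polynomial
open scoped commutatorElement

variable {n : ℕ}

/-- the dehomogenisation of a binary form -/
def P (w : En n) : ℝ[X] := ∑ i : Fin (n + 1), C (w i) * X ^ (i : ℕ)

lemma P_eval (w : En n) (x : ℝ) : (P w).eval x = T w x 1 := by
  rw [P, eval_finsetSum, T]
  apply Finset.sum_congr rfl
  intro i _
  simp

lemma P_degree (w : En n) : (P w).degree < ((n + 1 : ℕ) : WithBot ℕ) := by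
  apply lt_of_le_of_lt (degree_sum_le _ _)
  rw [Finset.sup_lt_iff (WithBot.bot_lt_coe _)]
  intro i _
  refine lt_of_le_of_lt (degree_C_mul_X_pow_le _ _) ?_
  exact_mod_cast i.2

lemma P_eq_zero {w : En n} (h : P w = 0) : w = 0 := by
  apply ev_injective n
  ext i
  rw [ev_apply, ev_apply, ← P_eval, ← P_eval, h]
  rw [P_eval, T_zero, eval_zero]

lemma P_add (w w' : En n) : P (w + w') = P w + P w' := by
  apply Polynomial.funext; intro x
  rw [eval_add, P_eval, P_eval, P_eval, T_add]

lemma P_zero : P (0 : En n) = 0 := by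
  apply Polynomial.funext; intro x
  rw [P_eval, T_zero, eval_zero]

lemma P_neg (w : En n) : P (-w) = - P w := by
  have := P_add w (-w)
  rw [add_neg_cancel, P_zero] at this
  exact (neg_eq_of_add_eq_zero_right this.symm).symm

lemma T_rho_u (t : ℝ) (w : En n) (x : ℝ) : T (rho (u t) w) x 1 = T w (x + -t) 1 := by
  rw [T_rho]; simp

lemma P_rho_u (t : ℝ) (w : En n) : P (rho (u t) w) = taylor (-t) (P w) := by
  apply Polynomial.funext; intro x
  rw [P_eval, taylor_eval, P_eval, T_rho_u]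

lemma degree_step {k : ℕ} (t : ℝ) (w : En n) (h : (P w).degree < ((k + 1 : ℕ) : WithBot ℕ)) :
    (P (w + -rho (u t) w)).degree < (k : WithBot ℕ) := by
  rw [P_add, P_neg, ← sub_eq_add_neg, P_rho_u]
  by_cases h0 : P w = 0
  · rw [h0]; simp
  · have h1 := degree_sub_lt_left (p := P w) (q := taylor (-t) (P w)) (degree_taylor _ _).symm h0
      (leadingCoeff_taylor (-t) (P w)).symm
    have h2 : (P w).degree ≤ (k : WithBot ℕ) := by
      rw [degree_eq_natDegree h0] at h ⊢
      have : (P w).natDegree < k + 1 := by exact_mod_cast h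
      exact_mod_cast (Nat.lt_succ_iff.1 this)
    exact lt_of_lt_of_le h1 h2

lemma N1_mul (p q : N1 n) : p * q = (p.1 + rho (u p.2) q.1, p.2 + q.2) := rfl
lemma N1_inv (p : N1 n) : p⁻¹ = (- rho (u (-p.2)) p.1, - p.2) := rfl
lemma N1_one : (1 : N1 n) = ((0, 0) : En n × ℝ) := rfl

/-- the ascending series -/
def Sk (k : ℕ) : Subgroup (N1 n) where
  carrier := {p | p.2 = 0 ∧ (P p.1).degree < (k : WithBot ℕ)}
  mul_mem' := by
    rintro p q ⟨hp, hp'⟩ ⟨hq, hq'⟩
    refine ⟨?_, ?_⟩
    · change p.2 + q.2 = 0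
      rw [hp, hq, add_zero]
    · change (P (p.1 + rho (u p.2) q.1)).degree < _
      rw [hp, u_zero, rho_one, P_add]
      exact lt_of_le_of_lt (degree_add_le _ _) (max_lt hp' hq')
  one_mem' := by
    refine ⟨rfl, ?_⟩
    change (P (0 : En n)).degree < _
    rw [P_zero, degree_zero]
    exact WithBot.bot_lt_coe k
  inv_mem' := by
    rintro p ⟨hp, hp'⟩
    refine ⟨?_, ?_⟩
    · change -p.2 = 0
      rw [hp, neg_zero]
    · change (P (-rho (u (-p.2)) p.1)).degree < _
      rw [hp, neg_zero, u_zero, rho_one, P_neg, degree_neg]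
      exact hp'

lemma N1_commutator_snd (p q : N1 n) : (⁅p, q⁆ : N1 n).2 = 0 := by
  change p.2 + q.2 + -p.2 + -q.2 = 0
  ring

lemma N1_commutator_of_snd_eq_zero {p : N1 n} (hp : p.2 = 0) (q : N1 n) :
    ⁅p, q⁆ = ((p.1 + -rho (u q.2) p.1, 0) : En n × ℝ) := by
  apply Prod.ext
  · change p.1 + rho (u p.2) q.1 + rho (u (p.2 + q.2)) (-rho (u (-p.2)) p.1) +
      rho (u (p.2 + q.2 + -p.2)) (-rho (u (-q.2)) q.1) = p.1 + -rho (u q.2) p.1
    rw [hp]
    simp only [zero_add, neg_zero, u_zero, rho_one, add_zero]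
    rw [rho_neg, rho_neg, ← rho_mul, ← u_add, add_neg_cancel, u_zero, rho_one]
    abel
  · exact N1_commutator_snd p q

instance N1_nilpotent : Group.IsNilpotent (N1 n) := by
  rw [Subgroup.nilpotent_iff_finite_ascending_central_series]
  refine ⟨n + 2, fun k => if k ≤ n + 1 then Sk k else ⊤, ⟨?_, ?_⟩, ?_⟩
  · change (if 0 ≤ n + 1 then Sk 0 else ⊤) = (⊥ : Subgroup (N1 n))
    rw [if_pos (by omega)]
    rw [eq_bot_iff]
    rintro p ⟨hp, hp'⟩
    rw [Subgroup.mem_bot]
    apply Prod.ext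
    · apply P_eq_zero
      rw [← degree_eq_bot]
      by_contra h
      have h0 : P p.1 ≠ 0 := fun h' => h (by rw [h', degree_zero])
      rw [degree_eq_natDegree h0] at hp'
      have : (P p.1).natDegree < 0 := by exact_mod_cast hp'
      omega
    · exact hp
  · intro x k hx g
    change x ∈ (if k + 1 ≤ n + 1 then Sk (k + 1) else ⊤ : Subgroup (N1 n)) at hx
    change _ ∈ (if k ≤ n + 1 then Sk k else ⊤ : Subgroup (N1 n))
    by_cases hk : k + 1 ≤ n + 1
    · rw [if_pos hk] at hx
      rw [if_pos (by omega)]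
      rw [N1_commutator_of_snd_eq_zero hx.1]
      exact ⟨rfl, degree_step _ _ hx.2⟩
    · by_cases hk' : k ≤ n + 1
      · have hk2 : k = n + 1 := by omega
        subst hk2
        rw [if_pos hk']
        exact ⟨N1_commutator_snd x g, P_degree _⟩
      · rw [if_neg hk']
        exact Subgroup.mem_top _
  · change (if n + 2 ≤ n + 1 then Sk (n + 2) else ⊤) = (⊤ : Subgroup (N1 n))
    rw [if_neg (by omega)]

/-- the monomial `x ^ n` -/
def w0 (n : ℕ) : En n := Pi.single (Fin.last n) 1

lemma T_w0 (x : ℝ) : T (w0 n) x 1 = x ^ n := by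
  rw [T, Finset.sum_eq_single (Fin.last n)]
  · simp [w0]
  · intro i _ hi
    simp [w0, hi]
  · intro h; exact absurd (Finset.mem_univ _) h

/-- iterated differences -/
def wj (n : ℕ) : ℕ → En n
  | 0 => w0 n
  | j + 1 => wj n j + -rho (u 1) (wj n j)

lemma T_wj (j : ℕ) (x : ℝ) :
    T (wj n j) x 1 = ((fwdDiff (1 : ℝ))^[j] (fun r : ℝ => r ^ n)) (x - j) := by
  induction j generalizing x with
  | zero => simp [wj, T_w0]
  | succ j ih =>
    have hneg : ∀ (w : En n) (x y : ℝ), T (-w) x y = - T w x y := by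
      intro w x y
      have := T_smul (-1) w x y
      simpa using this
    rw [wj, T_add, hneg, T_rho_u, ih, ih, Function.iterate_succ_apply', fwdDiff]
    have e1 : x - ((j + 1 : ℕ) : ℝ) + 1 = x - j := by push_cast; ring
    have e2 : x + -1 - (j : ℝ) = x - ((j + 1 : ℕ) : ℝ) := by push_cast; ring
    rw [e1, e2, ← sub_eq_add_neg]

lemma wj_ne {j : ℕ} (hj : j ≤ n) : wj n j ≠ 0 := by
  intro h
  have hz : ∀ k, j ≤ k → wj n k = 0 := by
    intro k hk
    induction k, hk using Nat.le_induction with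
    | base => exact h
    | succ k _ ih => rw [wj, ih, rho_zero]; simp
  have h1 := T_wj (n := n) n n
  rw [hz n hj, T_zero, fwdDiff_iter_eq_factorial] at h1
  have : ((n.factorial : ℕ) : ℝ) ≠ 0 := by exact_mod_cast n.factorial_ne_zero
  exact this h1.symm

/-- elements of `N₁` -/
def mkN1 (w : En n) (t : ℝ) : N1 n := (w, t)

lemma wj_mem (j : ℕ) :
    mkN1 (wj n j) 0 ∈ (⊤ : Subgroup (N1 n)).lowerCentralSeries j := by
  induction j with
  | zero => exact Subgroup.mem_top _
  | succ j ih =>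
    rw [Subgroup.lowerCentralSeries_succ]
    have h := Subgroup.commutator_mem_commutator ih
      (Subgroup.mem_top (mkN1 (0 : En n) 1))
    rw [N1_commutator_of_snd_eq_zero rfl] at h
    exact h

end Q8.Amalg
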