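import Pool.Agent.Q8.Amalg.Lie2
import Pool.Agent.Q8.Amalg.Nilp

/-!
Immersions, and the subgroups of the group generated by the two actions on `X = L₂`.
-/

noncomputable section

namespace Q8.Amalg

open Topology Manifold
open scoped commutatorElement

variable {n : ℕ}

lemma j1_smooth : ContMDiff 𝓘(ℝ, En n × ℝ) 𝓘(ℝ, (En n × ℝ) × (ℝ × ℝ × ℝ)) ⊤
    (j1 : N1 n → L1 n) := by
  apply ContMDiff.of_comp_isOpenEmbedding (I' := 𝓘(ℝ, (En n × ℝ) × (ℝ × ℝ × ℝ))) oe_cL1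
  have h : (cL1 ∘ (j1 : N1 n → L1 n)) = (fun x : En n × ℝ => (x, kap 1)) ∘ cN1 := rfl
  rw [h]
  exact ContMDiff.comp (I' := 𝓘(ℝ, En n × ℝ)) (by
    apply ContDiff.contMDiff; fun_prop) (contMDiff_isOpenEmbedding oe_cN1)

lemma j2_smooth : ContMDiff 𝓘(ℝ, ℝ × En n) 𝓘(ℝ, (ℝ × En n) × (ℝ × ℝ × ℝ)) ⊤
    (j2 : N2 n → L2 n) := by
  apply ContMDiff.of_comp_isOpenEmbedding (I' := 𝓘(ℝ, (ℝ × En n) × (ℝ × ℝ × ℝ))) oe_cL2
  have h : (cL2 ∘ (j2 : N2 n → L2 n)) = (fun x : ℝ × En n => (x, kap 1)) ∘ cN2 := rfl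
  rw [h]
  exact ContMDiff.comp (I' := 𝓘(ℝ, ℝ × En n)) (by
    apply ContDiff.contMDiff; fun_prop) (contMDiff_isOpenEmbedding oe_cN2)

/-- retraction `L₁ → N₁` -/
def r1 (p : L1 n) : N1 n := p.1
/-- retraction `L₂ → N₂` -/
def r2 (p : L2 n) : N2 n := p.1

lemma r1_smooth : ContMDiff 𝓘(ℝ, (En n × ℝ) × (ℝ × ℝ × ℝ)) 𝓘(ℝ, En n × ℝ) ⊤
    (r1 : L1 n → N1 n) := by
  apply ContMDiff.of_comp_isOpenEmbedding (I' := 𝓘(ℝ, En n × ℝ)) oe_cN1
  have h : (cN1 ∘ (r1 : L1 n → N1 n)) =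
    (fun x : (En n × ℝ) × (ℝ × ℝ × ℝ) => x.1) ∘ cL1 := rfl
  rw [h]
  exact ContMDiff.comp (I' := 𝓘(ℝ, (En n × ℝ) × (ℝ × ℝ × ℝ))) (by
    apply ContDiff.contMDiff; fun_prop) (contMDiff_isOpenEmbedding oe_cL1)

lemma r2_smooth : ContMDiff 𝓘(ℝ, (ℝ × En n) × (ℝ × ℝ × ℝ)) 𝓘(ℝ, ℝ × En n) ⊤
    (r2 : L2 n → N2 n) := by
  apply ContMDiff.of_comp_isOpenEmbedding (I' := 𝓘(ℝ, ℝ × En n)) oe_cN2
  have h : (cN2 ∘ (r2 : L2 n → N2 n)) =
    (fun x : (ℝ × En n) × (ℝ × ℝ × ℝ) => x.1) ∘ cL2 := rfl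
  rw [h]
  exact ContMDiff.comp (I' := 𝓘(ℝ, (ℝ × En n) × (ℝ × ℝ × ℝ))) (by
    apply ContDiff.contMDiff; fun_prop) (contMDiff_isOpenEmbedding oe_cL2)

/-- A smooth map with a smooth left inverse is an immersion. -/
lemma mfderiv_injective_of_retract {E F M N : Type*} [NormedAddCommGroup E] [NormedSpace ℝ E]
    [NormedAddCommGroup F] [NormedSpace ℝ F] [TopologicalSpace M] [ChartedSpace E M]
    [TopologicalSpace N] [ChartedSpace F N] {j : M → N} {r : N → M}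
    (hj : ContMDiff 𝓘(ℝ, E) 𝓘(ℝ, F) ⊤ j) (hr : ContMDiff 𝓘(ℝ, F) 𝓘(ℝ, E) ⊤ r)
    (h : ∀ x, r (j x) = x) (x : M) :
    Function.Injective (mfderiv 𝓘(ℝ, E) 𝓘(ℝ, F) j x) := by
  have hj' : MDifferentiableAt 𝓘(ℝ, E) 𝓘(ℝ, F) j x := (hj x).mdifferentiableAt (by simp)
  have hr' : MDifferentiableAt 𝓘(ℝ, F) 𝓘(ℝ, E) r (j x) := (hr (j x)).mdifferentiableAt (by simp)
  have h1 := mfderiv_comp x hr' hj'
  have h2 : r ∘ j = id := funext h
  rw [h2, mfderiv_id] at h1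
  intro a b hab
  have h3 := congrArg (mfderiv 𝓘(ℝ, F) 𝓘(ℝ, E) r (j x)) hab
  have h4 : ∀ v, mfderiv 𝓘(ℝ, F) 𝓘(ℝ, E) r (j x) (mfderiv 𝓘(ℝ, E) 𝓘(ℝ, F) j x v) = v := by
    intro v
    have := congrArg (fun A => A v) h1
    exact this.symm
  rw [h4, h4] at h3
  exact h3

lemma j1_immersion (x : N1 n) : Function.Injective
    (mfderiv 𝓘(ℝ, En n × ℝ) 𝓘(ℝ, (En n × ℝ) × (ℝ × ℝ × ℝ)) (j1 : N1 n → L1 n) x) :=
  mfderiv_injective_of_retract j1_smooth r1_smooth (fun _ => rfl) x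

lemma j2_immersion (x : N2 n) : Function.Injective
    (mfderiv 𝓘(ℝ, ℝ × En n) 𝓘(ℝ, (ℝ × En n) × (ℝ × ℝ × ℝ)) (j2 : N2 n → L2 n) x) :=
  mfderiv_injective_of_retract j2_smooth r2_smooth (fun _ => rfl) x

instance : SimplyConnectedSpace (N1 n) := (inferInstance : SimplyConnectedSpace (En n × ℝ))
instance : SimplyConnectedSpace (N2 n) := (inferInstance : SimplyConnectedSpace (ℝ × En n))

instance : T2Space (N1 n) := (inferInstance : T2Space (En n × ℝ))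
instance : T2Space (N2 n) := (inferInstance : T2Space (ℝ × En n))
instance : T2Space (L1 n) := oe_cL1.isEmbedding.t2Space
instance : T2Space (L2 n) := oe_cL2.isEmbedding.t2Space
instance : SecondCountableTopology (N1 n) :=
  (inferInstance : SecondCountableTopology (En n × ℝ))
instance : SecondCountableTopology (N2 n) :=
  (inferInstance : SecondCountableTopology (ℝ × En n))
instance : SecondCountableTopology (L1 n) := oe_cL1.isEmbedding.secondCountableTopology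
instance : SecondCountableTopology (L2 n) := oe_cL2.isEmbedding.secondCountableTopology
instance : LocallyCompactSpace (L2 n) := oe_cL2.locallyCompactSpace

instance N2_nilpotent : Group.IsNilpotent (N2 n) := by
  rw [Subgroup.nilpotent_iff_lowerCentralSeries]
  refine ⟨1, ?_⟩
  rw [Subgroup.lowerCentralSeries_succ, Subgroup.lowerCentralSeries_zero, eq_bot_iff,
    Subgroup.commutator_le]
  intro g _ h _
  rw [Subgroup.mem_bot]
  apply Prod.ext
  · change g.1 + h.1 + -g.1 + -h.1 = 0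
    ring
  · change g.2 + h.2 + -g.2 + -h.2 = 0
    abel

/-! ### The ambient group -/

/-- first action -/
def i1 : L1 n →* HG (L2 n) := act Phi
/-- second action -/
def i2 : L2 n →* HG (L2 n) := act (Homeomorph.refl (L2 n))

/-- The subgroup generated by the two actions. -/
def SS (n : ℕ) : Subgroup (HG (L2 n)) :=
  Subgroup.closure (Set.range (i1 (n := n)) ∪ Set.range (i2 (n := n)))

lemma i1_mem (x : L1 n) : act Phi x ∈ SS n := Subgroup.subset_closure (Or.inl ⟨x, rfl⟩)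
lemma i2_mem (x : L2 n) : act (Homeomorph.refl (L2 n)) x ∈ SS n :=
  Subgroup.subset_closure (Or.inr ⟨x, rfl⟩)

/-- The ambient topological group. -/
abbrev GG (n : ℕ) := SS n

/-- `L₁ → G` -/
def I1 (n : ℕ) : L1 n →* GG n := actIn Phi (SS n) i1_mem
/-- `L₂ → G` -/
def I2 (n : ℕ) : L2 n →* GG n := actIn (Homeomorph.refl (L2 n)) (SS n) i2_mem

lemma I1_closed : IsClosedEmbedding (I1 n) := isClosedEmbedding_actIn _ _ _
lemma I2_closed : IsClosedEmbedding (I2 n) := isClosedEmbedding_actIn _ _ _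

lemma I_p (w : En n) (t s : ℝ) : I1 n (p1 w t s) = I2 n (p2 w t s) :=
  Subtype.ext (act_p w t s)

/-- `B₁` -/
def BB1 (n : ℕ) : Subgroup (GG n) := ((I1 n).comp j1).range
/-- `B₂` -/
def BB2 (n : ℕ) : Subgroup (GG n) := ((I2 n).comp j2).range

lemma mem_BB1 {x : GG n} : x ∈ BB1 n ↔ ∃ w t, x = I1 n (p1 w t 0) := by
  constructor
  · rintro ⟨⟨w, t⟩, rfl⟩
    refine ⟨w, t, ?_⟩
    change I1 n ((w, t), 1) = I1 n ((w, t), u 0)
    rw [u_zero]
  · rintro ⟨w, t, rfl⟩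
    refine ⟨(w, t), ?_⟩
    change I1 n ((w, t), 1) = I1 n ((w, t), u 0)
    rw [u_zero]

lemma mem_BB2 {x : GG n} : x ∈ BB2 n ↔ ∃ w s, x = I2 n (p2 w 0 s) := by
  constructor
  · rintro ⟨⟨r, w⟩, rfl⟩
    refine ⟨w, r + f1 w, ?_⟩
    change I2 n ((r, w), 1) = I2 n ((r + f1 w - f1 w, w), u 0)
    rw [u_zero, add_sub_cancel_right]
  · rintro ⟨w, s, rfl⟩
    refine ⟨(s - f1 w, w), ?_⟩
    change I2 n ((s - f1 w, w), 1) = I2 n ((s - f1 w, w), u 0)
    rw [u_zero]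

/-- `N₁ × ℝ → L₁` -/
def pp (n : ℕ) : N1 n × Multiplicative ℝ →* L1 n where
  toFun x := (x.1, u (Multiplicative.toAdd x.2))
  map_one' := by
    apply Prod.ext
    · rfl
    · exact u_zero
  map_mul' x y := by
    apply Prod.ext
    · rfl
    · exact u_add _ _

/-- The common subgroup `P` -/
def PP (n : ℕ) : Subgroup (GG n) := ((I1 n).comp (pp n)).range

lemma mem_PP {x : GG n} : x ∈ PP n ↔ ∃ w t s, x = I1 n (p1 w t s) := by
  constructor
  · rintro ⟨⟨⟨w, t⟩, s⟩, rfl⟩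
    exact ⟨w, t, Multiplicative.toAdd s, rfl⟩
  · rintro ⟨w, t, s, rfl⟩
    exact ⟨((w, t), Multiplicative.ofAdd s), rfl⟩

lemma BB_le_PP : BB1 n ⊔ BB2 n ≤ PP n := by
  apply sup_le
  · intro x hx
    obtain ⟨w, t, rfl⟩ := mem_BB1.1 hx
    exact mem_PP.2 ⟨w, t, 0, rfl⟩
  · intro x hx
    obtain ⟨w, s, rfl⟩ := mem_BB2.1 hx
    exact mem_PP.2 ⟨w, 0, s, (I_p w 0 s).symm⟩

lemma PP_le : PP n ≤ (I1 n).range ⊓ (I2 n).range := by
  intro x hx
  obtain ⟨w, t, s, rfl⟩ := mem_PP.1 hx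
  exact ⟨⟨_, rfl⟩, ⟨_, (I_p w t s).symm⟩⟩

lemma PP_nilpotent : Group.IsNilpotent (PP n) := by
  have h : Group.IsNilpotent (N1 n × Multiplicative ℝ) := inferInstance
  exact Group.nilpotent_of_surjective ((I1 n).comp (pp n)).rangeRestrict
    ((I1 n).comp (pp n)).rangeRestrict_surjective

lemma BB_nilpotent : Group.IsNilpotent ↥(BB1 n ⊔ BB2 n) := by
  have h := PP_nilpotent (n := n)
  rw [Subgroup.isNilpotent_iff_lowerCentralSeries] at h ⊢
  obtain ⟨k, hk⟩ := h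
  refine ⟨k, ?_⟩
  rw [eq_bot_iff, ← hk]
  exact Subgroup.lowerCentralSeries_mono k BB_le_PP

lemma I1_injective : Function.Injective (I1 n) := I1_closed.injective
lemma I2_injective : Function.Injective (I2 n) := I2_closed.injective

lemma BB_class (N : ℕ) (hN : N ≤ n) : N < Group.nilpotencyClass ↥(BB1 n ⊔ BB2 n) := by
  have hnil := BB_nilpotent (n := n)
  by_contra hcon
  have h1 := Subgroup.lowerCentralSeries_eq_bot_of_nilpotencyClass_le (S := BB1 n ⊔ BB2 n)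
    (not_lt.1 hcon)
  have h2 : ((I1 n).comp j1) (mkN1 (wj n N) 0) ∈ (BB1 n ⊔ BB2 n).lowerCentralSeries N := by
    have h3 := Subgroup.mem_map_of_mem ((I1 n).comp j1) (wj_mem (n := n) N)
    rw [Subgroup.map_lowerCentralSeries] at h3
    refine Subgroup.lowerCentralSeries_mono N ?_ h3
    rw [← MonoidHom.range_eq_map]
    exact le_sup_left
  rw [h1, Subgroup.mem_bot] at h2
  have h4 : j1 (mkN1 (wj n N) 0) = (1 : L1 n) := by
    apply I1_injective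
    rw [map_one]
    exact h2
  have h5 : wj n N = 0 := congrArg (fun x : (En n × ℝ) × SL => x.1.1) h4
  exact wj_ne hN h5

/-- A form of positive degree constant on an orbit vanishes. -/
lemma eq_zero_of_f1_const (hn : 0 < n) (w : En n) (h : ∀ g : SL, f1 (rho g w) = f1 w) :
    w = 0 := by
  have h1 : ∀ g : SL, T w (g 1 1) (-g 1 0) = T w 1 0 := by
    intro g
    have := h g
    rw [f1, T_rho] at this
    simpa [f1] using this
  have hc : T w 1 0 = 0 := by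
    have h2 := h1 ⟨!![1 / 2, 0; 0, 2], by rw [Matrix.det_fin_two_of]; norm_num⟩
    have h3 : T w 2 (-0) = T w 1 0 := h2
    have h4 := T_homog w 2 1 0
    rw [mul_one, mul_zero] at h4
    rw [neg_zero, h4] at h3
    have h5 : (2 : ℝ) ^ n ≠ 1 := by
      have : (1 : ℝ) < 2 ^ n := one_lt_pow₀ (by norm_num) (by omega)
      exact this.ne'
    have h6 : ((2 : ℝ) ^ n - 1) * T w 1 0 = 0 := by linear_combination h3
    exact (mul_eq_zero.1 h6).resolve_left (sub_ne_zero.2 h5)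
  apply ev_injective n
  ext i
  rw [ev_apply, ev_apply, T_zero]
  have h2 := h1 ⟨!![0, 1; -1, (i : ℝ)], by rw [Matrix.det_fin_two_of]; norm_num⟩
  have h3 : T w (i : ℝ) (-(-1)) = T w 1 0 := h2
  rw [neg_neg, hc] at h3
  exact h3

/-- elements of `L₂` -/
def mk2 (r : ℝ) (w : En n) (g : SL) : L2 n := ((r, w), g)

lemma mk2_mul (r : ℝ) (w : En n) (g : SL) (r' : ℝ) (w' : En n) (g' : SL) :
    mk2 r w g * mk2 r' w' g' = mk2 (r + r') (w + rho g w') (g * g') := rfl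

lemma mk2_inv (r : ℝ) (w : En n) (g : SL) : (mk2 r w g)⁻¹ = mk2 (-r) (-rho g⁻¹ w) g⁻¹ := rfl

lemma mk2_conj (g : SL) (r : ℝ) (w : En n) :
    mk2 0 0 g * mk2 r w 1 * (mk2 0 0 g)⁻¹ = mk2 r (rho g w) 1 := by
  simp only [mk2_inv, mk2_mul, rho_zero, neg_zero, zero_add, add_zero, mul_one, mul_inv_cancel]

lemma mk2_inj {r r' : ℝ} {w w' : En n} {g g' : SL} (h : mk2 r w g = mk2 r' w' g') :
    r = r' ∧ w = w' ∧ g = g' :=
  ⟨congrArg (fun x : (ℝ × En n) × SL => x.1.1) h, congrArg (fun x : (ℝ × En n) × SL => x.1.2) h,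
    congrArg (fun x : (ℝ × En n) × SL => x.2) h⟩

/-- No nontrivial subgroup of `B₁ ∩ B₂` is normal in `G`. -/
lemma core (hn : 0 < n) (X : Subgroup (GG n)) (hX : X.Normal) (hle : X ≤ BB1 n ⊓ BB2 n) :
    X = ⊥ := by
  rw [eq_bot_iff]
  intro x hx
  rw [Subgroup.mem_bot]
  obtain ⟨w, t, h1⟩ := mem_BB1.1 (hle hx).1
  obtain ⟨w', s, h2⟩ := mem_BB2.1 (hle hx).2
  rw [I_p] at h1
  have h3 := I2_injective (h1.symm.trans h2)
  have h4 := (mk2_inj (r := 0 - f1 w) (r' := s - f1 w') h3).2.2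
  rw [u_zero] at h4
  have h5 : x = I2 n (mk2 (0 - f1 w) w 1) := by
    rw [h1]
    change I2 n (mk2 (0 - f1 w) w (u t)) = _
    rw [h4]
  have h6 : w = 0 := by
    apply eq_zero_of_f1_const hn
    intro g
    have h7 := hX.conj_mem x hx (I2 n (mk2 0 0 g))
    rw [h5, ← map_mul, ← map_inv, ← map_mul, mk2_conj] at h7
    obtain ⟨w'', t'', h8⟩ := mem_BB1.1 (hle h7).1
    rw [I_p] at h8
    obtain ⟨h9, h10, _⟩ := mk2_inj (r := 0 - f1 w) (r' := 0 - f1 w'') (I2_injective h8)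
    rw [h10]
    linarith
  rw [h5, h6, f1_zero, sub_zero]
  exact map_one _

lemma generated :
    Subgroup.closure (Set.range (I1 n) ∪ Set.range (I2 n)) = (⊤ : Subgroup (GG n)) := by
  have h := Subgroup.closure_closure_coe_preimage
    (k := Set.range (i1 (n := n)) ∪ Set.range (i2 (n := n)))
  refine Eq.trans ?_ h
  congr 1
  ext x
  constructor
  · rintro (⟨y, rfl⟩ | ⟨y, rfl⟩)
    · exact Or.inl ⟨y, rfl⟩
    · exact Or.inr ⟨y, rfl⟩
  · rintro (⟨y, hy⟩ | ⟨y, hy⟩)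
    · exact Or.inl ⟨y, Subtype.ext hy⟩
    · exact Or.inr ⟨y, Subtype.ext hy⟩

lemma q1_surj : Function.Surjective (q1 : L1 n →* SL) := fun g => ⟨((0, 0), g), rfl⟩
lemma q2_surj : Function.Surjective (q2 : L2 n →* SL) := fun g => ⟨((0, 0), g), rfl⟩
lemma q1_cont : Continuous (q1 : L1 n →* SL) :=
  (continuous_snd : Continuous (Prod.snd : (En n × ℝ) × SL → SL))
lemma q2_cont : Continuous (q2 : L2 n →* SL) :=
  (continuous_snd : Continuous (Prod.snd : (ℝ × En n) × SL → SL))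
lemma q1_open : IsOpenMap (q1 : L1 n →* SL) :=
  (isOpenMap_snd : IsOpenMap (Prod.snd : (En n × ℝ) × SL → SL))
lemma q2_open : IsOpenMap (q2 : L2 n →* SL) :=
  (isOpenMap_snd : IsOpenMap (Prod.snd : (ℝ × En n) × SL → SL))

lemma j1_inj : Function.Injective (j1 : N1 n →* L1 n) :=
  fun _ _ h => congrArg (fun z : (En n × ℝ) × SL => z.1) h
lemma j2_inj : Function.Injective (j2 : N2 n →* L2 n) :=
  fun _ _ h => congrArg (fun z : (ℝ × En n) × SL => z.1) h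

end Q8.Amalg
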