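import Mathlib

/-!
The group of self-homeomorphisms of a locally compact Hausdorff space, with the topology induced
by `g ↦ (g, g⁻¹)` from the compact-open topology, and simply transitive actions on the space.
-/

noncomputable section

namespace Q8.Amalg

open Topology

variable {X : Type*} [TopologicalSpace X]

/-- The group of self-homeomorphisms of `X`. -/
def HG (X : Type*) [TopologicalSpace X] := X ≃ₜ X

instance : Group (HG X) := (inferInstance : Group (X ≃ₜ X))

/-- `g ↦ (g, g⁻¹)`. -/
def toC (g : HG X) : C(X, X) × C(X, X) :=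
  (⟨fun x => Homeomorph.toEquiv g x, Homeomorph.continuous g⟩,
    ⟨fun x => (Homeomorph.toEquiv g).symm x, Homeomorph.continuous_symm g⟩)

instance : TopologicalSpace (HG X) := TopologicalSpace.induced toC inferInstance

/-- evaluation -/
def HG.ev (g : HG X) (x : X) : X := Homeomorph.toEquiv g x

@[simp] lemma HG.ev_mul (g h : HG X) (x : X) : (g * h).ev x = g.ev (h.ev x) := rfl
@[simp] lemma HG.ev_one (x : X) : (1 : HG X).ev x = x := rfl
@[ext] lemma HG.ext {g h : HG X} (H : ∀ x, g.ev x = h.ev x) : g = h := Homeomorph.ext H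

lemma toC_fst_apply (g : HG X) (x : X) : (toC g).1 x = g.ev x := rfl
lemma toC_snd_apply (g : HG X) (x : X) : (toC g).2 x = g⁻¹.ev x := rfl

lemma continuous_toC : Continuous (toC : HG X → C(X, X) × C(X, X)) := continuous_induced_dom

instance [LocallyCompactSpace X] : IsTopologicalGroup (HG X) where
  continuous_mul := by
    rw [continuous_induced_rng]
    have h1 : (toC ∘ fun p : HG X × HG X => p.1 * p.2) =
        fun p => ((toC p.1).1.comp (toC p.2).1, (toC p.2).2.comp (toC p.1).2) := rfl
    rw [h1]
    have c1 : Continuous fun p : HG X × HG X => toC p.1 := continuous_toC.comp continuous_fst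
    have c2 : Continuous fun p : HG X × HG X => toC p.2 := continuous_toC.comp continuous_snd
    apply Continuous.prodMk
    · exact ContinuousMap.continuous_comp'.comp
        ((continuous_fst.comp c2).prodMk (continuous_fst.comp c1))
    · exact ContinuousMap.continuous_comp'.comp
        ((continuous_snd.comp c1).prodMk (continuous_snd.comp c2))
  continuous_inv := by
    rw [continuous_induced_rng]
    have h1 : (toC ∘ fun g : HG X => g⁻¹) = fun g => ((toC g).2, (toC g).1) := rfl
    rw [h1]
    exact (continuous_snd.comp continuous_toC).prodMk (continuous_fst.comp continuous_toC)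

instance [T2Space X] : T2Space (HG X) := by
  apply T2Space.of_injective_continuous (f := toC) _ continuous_toC
  intro g h hgh
  ext x
  rw [← toC_fst_apply, hgh, toC_fst_apply]

lemma continuous_ev (x : X) : Continuous (fun g : HG X => g.ev x) := by
  have : (fun g : HG X => g.ev x) = fun g => (toC g).1 x := rfl
  rw [this]
  exact (continuous_fst.comp continuous_toC).eval_const x

variable {L : Type*} [Group L] [TopologicalSpace L] [IsTopologicalGroup L]

/-- Transport of left translation along a homeomorphism `Φ : L ≃ₜ X`. -/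
def act (Φ : L ≃ₜ X) : L →* HG X where
  toFun x := (Φ.symm.trans (Homeomorph.mulLeft x)).trans Φ
  map_one' := by
    apply HG.ext
    intro y
    change Φ (1 * Φ.symm y) = y
    rw [one_mul, Homeomorph.apply_symm_apply]
  map_mul' x x' := by
    apply HG.ext
    intro y
    change Φ (x * x' * Φ.symm y) = Φ (x * Φ.symm (Φ (x' * Φ.symm y)))
    rw [Homeomorph.symm_apply_apply, mul_assoc]

lemma act_ev (Φ : L ≃ₜ X) (x : L) (y : X) : (act Φ x).ev y = Φ (x * Φ.symm y) := rfl

lemma act_inv_ev (Φ : L ≃ₜ X) (x : L) (y : X) : (act Φ x)⁻¹.ev y = Φ (x⁻¹ * Φ.symm y) := by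
  rw [← map_inv]; rfl

lemma continuous_act (Φ : L ≃ₜ X) : Continuous (act Φ) := by
  rw [continuous_induced_rng]
  apply Continuous.prodMk
  · apply ContinuousMap.continuous_of_continuous_uncurry
    change Continuous fun p : L × X => Φ (p.1 * Φ.symm p.2)
    exact Φ.continuous.comp (continuous_fst.mul (Φ.symm.continuous.comp continuous_snd))
  · apply ContinuousMap.continuous_of_continuous_uncurry
    have : (Function.uncurry fun (x : L) (y : X) => ((toC (act Φ x)).2 : C(X, X)) y) =
        fun p : L × X => Φ (p.1⁻¹ * Φ.symm p.2) := by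
      funext p
      exact act_inv_ev Φ p.1 p.2
    change Continuous (Function.uncurry fun (x : L) (y : X) => ((toC (act Φ x)).2 : C(X, X)) y)
    rw [this]
    exact Φ.continuous.comp (continuous_fst.inv.mul (Φ.symm.continuous.comp continuous_snd))

/-- The continuous retraction of `act`. -/
def retr (Φ : L ≃ₜ X) (g : HG X) : L := Φ.symm (g.ev (Φ 1))

lemma continuous_retr (Φ : L ≃ₜ X) : Continuous (retr Φ) := Φ.symm.continuous.comp (continuous_ev _)

lemma retr_act (Φ : L ≃ₜ X) (x : L) : retr Φ (act Φ x) = x := by
  rw [retr, act_ev, Homeomorph.symm_apply_apply, Homeomorph.symm_apply_apply, mul_one]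

lemma act_injective (Φ : L ≃ₜ X) : Function.Injective (act Φ) :=
  Function.LeftInverse.injective (retr_act Φ)

/-- `act Φ` with values in a subgroup `S` containing its range. -/
def actIn (Φ : L ≃ₜ X) (S : Subgroup (HG X)) (h : ∀ x, act Φ x ∈ S) : L →* S :=
  (act Φ).codRestrict S h

lemma actIn_coe (Φ : L ≃ₜ X) (S : Subgroup (HG X)) (h : ∀ x, act Φ x ∈ S) (x : L) :
    (actIn Φ S h x : HG X) = act Φ x := rfl

lemma isClosedEmbedding_actIn [T2Space X] (Φ : L ≃ₜ X) (S : Subgroup (HG X))
    (h : ∀ x, act Φ x ∈ S) : IsClosedEmbedding (actIn Φ S h) := by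
  have hl : Function.LeftInverse (fun s : S => retr Φ (s : HG X)) (actIn Φ S h) :=
    fun x => retr_act Φ x
  exact hl.isClosedEmbedding ((continuous_retr Φ).comp continuous_subtype_val)
    (Continuous.subtype_mk (continuous_act Φ) _)

end Q8.Amalg
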