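import Pool.Agent.Q8.Amalg.Sym
import Pool.Agent.Q8.Amalg.Homeo

/-!
The groups `N₁ = W ⋊ ℝ`, `L₁ = N₁ × SL₂(ℝ)`, `N₂ = ℝ × W`, `L₂ = ℝ × (W ⋊ SL₂(ℝ))`, where `W` is the
space of binary forms of degree `n`, and the homeomorphism `L₁ ≃ L₂`.
-/

noncomputable section

namespace Q8.Amalg

open Topology

/-- `SL₂(ℝ)` -/
abbrev SL := Matrix.SpecialLinearGroup (Fin 2) ℝ

lemma SL_det (g : SL) : g 0 0 * g 1 1 - g 0 1 * g 1 0 = 1 := by
  have := g.det_coe
  rwa [Matrix.det_fin_two] at this

lemma SL_ext {g h : SL} (h00 : g 0 0 = h 0 0) (h01 : g 0 1 = h 0 1) (h10 : g 1 0 = h 1 0)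
    (h11 : g 1 1 = h 1 1) : g = h := by
  apply Subtype.ext
  ext i j
  fin_cases i <;> fin_cases j <;> assumption

lemma SL_mul_apply (g h : SL) (i j : Fin 2) : (g * h) i j = g i 0 * h 0 j + g i 1 * h 1 j := by
  rw [Matrix.SpecialLinearGroup.coe_mul, Matrix.mul_apply, Fin.sum_univ_two]

lemma SL_inv00 (g : SL) : g⁻¹ 0 0 = g 1 1 := by
  rw [Matrix.SpecialLinearGroup.coe_inv, Matrix.adjugate_fin_two]; rfl
lemma SL_inv01 (g : SL) : g⁻¹ 0 1 = - g 0 1 := by
  rw [Matrix.SpecialLinearGroup.coe_inv, Matrix.adjugate_fin_two]; rfl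
lemma SL_inv10 (g : SL) : g⁻¹ 1 0 = - g 1 0 := by
  rw [Matrix.SpecialLinearGroup.coe_inv, Matrix.adjugate_fin_two]; rfl
lemma SL_inv11 (g : SL) : g⁻¹ 1 1 = g 0 0 := by
  rw [Matrix.SpecialLinearGroup.coe_inv, Matrix.adjugate_fin_two]; rfl

/-- Action of `SL₂(ℝ)` on binary forms: `(ρ g w)(v) = w (g⁻¹ v)`. -/
def rho {n : ℕ} (g : SL) (w : En n) : En n := subst (g 1 1) (-g 0 1) (-g 1 0) (g 0 0) w

lemma T_rho {n : ℕ} (g : SL) (w : En n) (x y : ℝ) :
    T (rho g w) x y = T w (g 1 1 * x + -g 0 1 * y) (-g 1 0 * x + g 0 0 * y) := T_subst _ _ _ _ _ _ _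

lemma rho_one {n : ℕ} (w : En n) : rho 1 w = w := by
  apply T_injective; intro x y
  rw [T_rho]; simp

lemma rho_mul {n : ℕ} (g h : SL) (w : En n) : rho (g * h) w = rho g (rho h w) := by
  apply T_injective; intro x y
  rw [T_rho, T_rho, T_rho]
  simp only [SL_mul_apply]
  congr 1 <;> ring

lemma rho_add {n : ℕ} (g : SL) (w w' : En n) : rho g (w + w') = rho g w + rho g w' :=
  subst_add _ _ _ _ _ _

lemma rho_zero {n : ℕ} (g : SL) : rho g (0 : En n) = 0 := subst_zero _ _ _ _

lemma rho_neg {n : ℕ} (g : SL) (w : En n) : rho g (-w) = - rho g w := subst_neg _ _ _ _ _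

/-- The unipotent element `u(t)`. -/
def u (t : ℝ) : SL := ⟨!![1, t; 0, 1], by simp [Matrix.det_fin_two]⟩

@[simp] lemma u00 (t : ℝ) : u t 0 0 = 1 := rfl
@[simp] lemma u01 (t : ℝ) : u t 0 1 = t := rfl
@[simp] lemma u10 (t : ℝ) : u t 1 0 = 0 := rfl
@[simp] lemma u11 (t : ℝ) : u t 1 1 = 1 := rfl

lemma u_zero : u 0 = 1 := by
  apply SL_ext <;> simp

lemma u_add (s t : ℝ) : u (s + t) = u s * u t := by
  apply SL_ext <;> simp [SL_mul_apply, add_comm]

/-- The value of the form at the fixed vector `e₁ = (1, 0)`. -/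
def f1 {n : ℕ} (w : En n) : ℝ := T w 1 0

lemma f1_add {n : ℕ} (w w' : En n) : f1 (w + w') = f1 w + f1 w' := T_add _ _ _ _
lemma f1_zero {n : ℕ} : f1 (0 : En n) = 0 := T_zero _ _
lemma f1_rho_u {n : ℕ} (t : ℝ) (w : En n) : f1 (rho (u t) w) = f1 w := by
  rw [f1, T_rho]; simp [f1]

/-- `N₁ = W ⋊ ℝ`. -/
def N1 (n : ℕ) := En n × ℝ

/-- `N₂ = ℝ × W`. -/
def N2 (n : ℕ) := ℝ × En n

/-- `L₁ = N₁ × SL₂(ℝ)`. -/
def L1 (n : ℕ) := (En n × ℝ) × SL

/-- `L₂ = ℝ × (W ⋊ SL₂(ℝ))`. -/
def L2 (n : ℕ) := (ℝ × En n) × SL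

variable {n : ℕ}

instance : TopologicalSpace (N1 n) := (inferInstance : TopologicalSpace (En n × ℝ))
instance : TopologicalSpace (N2 n) := (inferInstance : TopologicalSpace (ℝ × En n))
instance : TopologicalSpace (L1 n) := (inferInstance : TopologicalSpace ((En n × ℝ) × SL))
instance : TopologicalSpace (L2 n) := (inferInstance : TopologicalSpace ((ℝ × En n) × SL))

instance : Group (N1 n) where
  mul p q := (p.1 + rho (u p.2) q.1, p.2 + q.2)
  one := (0, 0)
  inv p := (- rho (u (-p.2)) p.1, - p.2)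
  mul_assoc p q r := by
    apply Prod.ext
    · change p.1 + rho (u p.2) q.1 + rho (u (p.2 + q.2)) r.1 =
        p.1 + rho (u p.2) (q.1 + rho (u q.2) r.1)
      rw [rho_add, u_add, rho_mul, add_assoc]
    · exact add_assoc _ _ _
  one_mul p := by
    apply Prod.ext
    · change 0 + rho (u 0) p.1 = p.1
      rw [u_zero, rho_one, zero_add]
    · exact zero_add _
  mul_one p := by
    apply Prod.ext
    · change p.1 + rho (u p.2) 0 = p.1
      rw [rho_zero, add_zero]
    · exact add_zero _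
  inv_mul_cancel p := by
    apply Prod.ext
    · change - rho (u (-p.2)) p.1 + rho (u (-p.2)) p.1 = 0
      rw [neg_add_cancel]
    · exact neg_add_cancel _

instance : Group (N2 n) where
  mul p q := (p.1 + q.1, p.2 + q.2)
  one := (0, 0)
  inv p := (-p.1, -p.2)
  mul_assoc p q r := Prod.ext (add_assoc _ _ _) (add_assoc _ _ _)
  one_mul p := Prod.ext (zero_add _) (zero_add _)
  mul_one p := Prod.ext (add_zero _) (add_zero _)
  inv_mul_cancel p := Prod.ext (neg_add_cancel _) (neg_add_cancel _)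

instance : Group (L1 n) where
  mul p q := ((p.1.1 + rho (u p.1.2) q.1.1, p.1.2 + q.1.2), p.2 * q.2)
  one := ((0, 0), 1)
  inv p := ((- rho (u (-p.1.2)) p.1.1, - p.1.2), p.2⁻¹)
  mul_assoc p q r := by
    apply Prod.ext
    · exact mul_assoc (G := N1 n) p.1 q.1 r.1
    · exact mul_assoc _ _ _
  one_mul p := by
    apply Prod.ext
    · exact one_mul (M := N1 n) p.1
    · exact one_mul _
  mul_one p := by
    apply Prod.ext
    · exact mul_one (M := N1 n) p.1
    · exact mul_one _
  inv_mul_cancel p := by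
    apply Prod.ext
    · exact inv_mul_cancel (G := N1 n) p.1
    · exact inv_mul_cancel _

instance : Group (L2 n) where
  mul p q := ((p.1.1 + q.1.1, p.1.2 + rho p.2 q.1.2), p.2 * q.2)
  one := ((0, 0), 1)
  inv p := ((- p.1.1, - rho p.2⁻¹ p.1.2), p.2⁻¹)
  mul_assoc p q r := by
    apply Prod.ext
    · apply Prod.ext
      · exact add_assoc _ _ _
      · change p.1.2 + rho p.2 q.1.2 + rho (p.2 * q.2) r.1.2 =
          p.1.2 + rho p.2 (q.1.2 + rho q.2 r.1.2)
        rw [rho_add, rho_mul, add_assoc]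
    · exact mul_assoc _ _ _
  one_mul p := by
    apply Prod.ext
    · apply Prod.ext
      · exact zero_add _
      · change 0 + rho 1 p.1.2 = p.1.2
        rw [rho_one, zero_add]
    · exact one_mul _
  mul_one p := by
    apply Prod.ext
    · apply Prod.ext
      · exact add_zero _
      · change p.1.2 + rho p.2 0 = p.1.2
        rw [rho_zero, add_zero]
    · exact mul_one _
  inv_mul_cancel p := by
    apply Prod.ext
    · apply Prod.ext
      · exact neg_add_cancel _
      · change - rho p.2⁻¹ p.1.2 + rho p.2⁻¹ p.1.2 = 0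
        rw [neg_add_cancel]
    · exact inv_mul_cancel _

/-- `N₁ → L₁` -/
def j1 : N1 n →* L1 n where
  toFun p := (p, 1)
  map_one' := rfl
  map_mul' p q := by
    apply Prod.ext
    · rfl
    · exact (mul_one (1 : SL)).symm

/-- `N₂ → L₂` -/
def j2 : N2 n →* L2 n where
  toFun p := (p, 1)
  map_one' := rfl
  map_mul' p q := by
    apply Prod.ext
    · apply Prod.ext
      · rfl
      · change p.2 + q.2 = p.2 + rho 1 q.2
        rw [rho_one]
    · exact (mul_one (1 : SL)).symm

/-- `L₁ → SL₂(ℝ)` -/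
def q1 : L1 n →* SL where
  toFun p := p.2
  map_one' := rfl
  map_mul' _ _ := rfl

/-- `L₂ → SL₂(ℝ)` -/
def q2 : L2 n →* SL where
  toFun p := p.2
  map_one' := rfl
  map_mul' _ _ := rfl

lemma ker_q1 : (q1 : L1 n →* SL).ker = (j1 : N1 n →* L1 n).range := by
  ext p
  rw [MonoidHom.mem_ker, MonoidHom.mem_range]
  constructor
  · intro h; exact ⟨p.1, Prod.ext rfl h.symm⟩
  · rintro ⟨x, rfl⟩; rfl

lemma ker_q2 : (q2 : L2 n →* SL).ker = (j2 : N2 n →* L2 n).range := by
  ext p
  rw [MonoidHom.mem_ker, MonoidHom.mem_range]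
  constructor
  · intro h; exact ⟨p.1, Prod.ext rfl h.symm⟩
  · rintro ⟨x, rfl⟩; rfl

/-! ### The coordinates `(s, c, d)` on `SL₂(ℝ)` -/

/-- `c² + d²` -/
def nrm (g : SL) : ℝ := g 1 0 ^ 2 + g 1 1 ^ 2

lemma row_ne (g : SL) : g 1 0 ≠ 0 ∨ g 1 1 ≠ 0 := by
  by_contra h
  rw [not_or, not_not, not_not] at h
  have := SL_det g
  rw [h.1, h.2] at this
  norm_num at this

lemma nrm_pos (g : SL) : 0 < nrm g := by
  rcases row_ne g with h | h
  · have := pow_pos (abs_pos.2 h) 2
    rw [sq_abs] at this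
    exact add_pos_of_pos_of_nonneg this (sq_nonneg _)
  · have := pow_pos (abs_pos.2 h) 2
    rw [sq_abs] at this
    exact add_pos_of_nonneg_of_pos (sq_nonneg _) this

/-- The `U`-coordinate. -/
def sc (g : SL) : ℝ := (g 0 0 * g 1 0 + g 0 1 * g 1 1) / nrm g

lemma nrm_u_mul (t : ℝ) (g : SL) : nrm (u t * g) = nrm g := by
  simp [nrm, SL_mul_apply]

lemma sc_u_mul (t : ℝ) (g : SL) : sc (u t * g) = t + sc g := by
  have h := (nrm_pos g).ne'
  rw [sc, sc, nrm_u_mul, div_eq_iff h, add_mul, div_mul_cancel₀ _ h]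
  simp only [SL_mul_apply, u00, u01, u10, u11, nrm]
  ring

/-- `σ(g) = u(sc g)⁻¹ g`, the part depending only on the second row -/
def sig (g : SL) : SL := u (-sc g) * g

lemma sig_u_mul (t : ℝ) (g : SL) : sig (u t * g) = sig g := by
  rw [sig, sig, sc_u_mul, ← mul_assoc, ← u_add]
  congr 2
  ring

lemma u_mul_sig (g : SL) : u (sc g) * sig g = g := by
  rw [sig, ← mul_assoc, ← u_add, add_neg_cancel, u_zero, one_mul]

lemma sc_sig (g : SL) : sc (sig g) = 0 := by
  rw [sig, sc_u_mul, neg_add_cancel]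

lemma sig_sig (g : SL) : sig (sig g) = sig g := by
  rw [sig, sc_sig, neg_zero, u_zero, one_mul]

lemma continuous_entry (i j : Fin 2) : Continuous (fun g : SL => g i j) := by
  have := continuous_subtype_val (p := fun A : Matrix (Fin 2) (Fin 2) ℝ => A.det = 1)
  exact (continuous_apply j).comp ((continuous_apply i).comp this)

lemma continuous_nrm : Continuous nrm := by
  unfold nrm
  exact ((continuous_entry 1 0).pow 2).add ((continuous_entry 1 1).pow 2)

lemma continuous_sc : Continuous sc := by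
  unfold sc
  exact (((continuous_entry 0 0).mul (continuous_entry 1 0)).add
    ((continuous_entry 0 1).mul (continuous_entry 1 1))).div continuous_nrm
    (fun g => (nrm_pos g).ne')

lemma continuous_u : Continuous u := by
  unfold u
  apply Continuous.subtype_mk
  apply continuous_matrix
  intro i j
  fin_cases i <;> fin_cases j
  · exact continuous_const
  · exact continuous_id
  · exact continuous_const
  · exact continuous_const

lemma continuous_sig : Continuous sig := by
  unfold sig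
  exact (continuous_u.comp continuous_sc.neg).mul continuous_id

lemma continuous_rho : Continuous (fun p : SL × En n => rho p.1 p.2) := by
  have h : (fun p : SL × En n => rho p.1 p.2) =
      (fun p : (ℝ × ℝ × ℝ × ℝ) × En n => subst p.1.1 p.1.2.1 p.1.2.2.1 p.1.2.2.2 p.2) ∘
      (fun p : SL × En n => ((p.1 1 1, -p.1 0 1, -p.1 1 0, p.1 0 0), p.2)) := rfl
  rw [h]
  apply contDiff_subst.continuous.comp
  have e := fun i j => (continuous_entry i j).comp (continuous_fst (X := SL) (Y := En n))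
  exact ((e 1 1).prodMk ((e 0 1).neg.prodMk ((e 1 0).neg.prodMk (e 0 0)))).prodMk continuous_snd

lemma continuous_f1 : Continuous (f1 : En n → ℝ) := by
  have h : (f1 : En n → ℝ) = (fun p : En n × ℝ × ℝ => T p.1 p.2.1 p.2.2) ∘ fun w => (w, 1, 0) := rfl
  rw [h]
  exact contDiff_T.continuous.comp (by fun_prop)

instance : IsTopologicalGroup (L2 n) where
  continuous_mul := by
    change Continuous fun p : ((ℝ × En n) × SL) × ((ℝ × En n) × SL) =>
      (((p.1.1.1 + p.2.1.1, p.1.1.2 + rho p.1.2 p.2.1.2), p.1.2 * p.2.2) : (ℝ × En n) × SL)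
    have h := (continuous_rho (n := n)).comp
      (f := fun p : ((ℝ × En n) × SL) × ((ℝ × En n) × SL) => (p.1.2, p.2.1.2)) (by fun_prop)
    have h' : Continuous fun p : ((ℝ × En n) × SL) × ((ℝ × En n) × SL) => rho p.1.2 p.2.1.2 := h
    fun_prop
  continuous_inv := by
    change Continuous fun p : (ℝ × En n) × SL =>
      (((- p.1.1, - rho p.2⁻¹ p.1.2), p.2⁻¹) : (ℝ × En n) × SL)
    have h := (continuous_rho (n := n)).comp
      (f := fun p : (ℝ × En n) × SL => (p.2⁻¹, p.1.2)) (by fun_prop)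
    have h' : Continuous fun p : (ℝ × En n) × SL => rho p.2⁻¹ p.1.2 := h
    fun_prop

instance : IsTopologicalGroup (L1 n) where
  continuous_mul := by
    change Continuous fun p : ((En n × ℝ) × SL) × ((En n × ℝ) × SL) =>
      (((p.1.1.1 + rho (u p.1.1.2) p.2.1.1, p.1.1.2 + p.2.1.2), p.1.2 * p.2.2) : (En n × ℝ) × SL)
    have h := (continuous_rho (n := n)).comp
      (f := fun p : ((En n × ℝ) × SL) × ((En n × ℝ) × SL) => (u p.1.1.2, p.2.1.1))
      ((continuous_u.comp (by fun_prop)).prodMk (by fun_prop))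
    have h' : Continuous fun p : ((En n × ℝ) × SL) × ((En n × ℝ) × SL) =>
      rho (u p.1.1.2) p.2.1.1 := h
    fun_prop
  continuous_inv := by
    change Continuous fun p : (En n × ℝ) × SL =>
      (((- rho (u (-p.1.2)) p.1.1, - p.1.2), p.2⁻¹) : (En n × ℝ) × SL)
    have h := (continuous_rho (n := n)).comp
      (f := fun p : (En n × ℝ) × SL => (u (-p.1.2), p.1.1))
      ((continuous_u.comp (by fun_prop)).prodMk (by fun_prop))
    have h' : Continuous fun p : (En n × ℝ) × SL => rho (u (-p.1.2)) p.1.1 := h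
    fun_prop

/-- The homeomorphism `L₁ ≃ L₂`. -/
def Phi : L1 n ≃ₜ L2 n where
  toFun p := ((sc p.2 - f1 p.1.1, p.1.1), u p.1.2 * sig p.2)
  invFun p := ((p.1.2, sc p.2), u (p.1.1 + f1 p.1.2) * sig p.2)
  left_inv p := by
    apply Prod.ext
    · apply Prod.ext
      · rfl
      · change sc (u p.1.2 * sig p.2) = p.1.2
        rw [sc_u_mul, sc_sig, add_zero]
    · change u (sc p.2 - f1 p.1.1 + f1 p.1.1) * sig (u p.1.2 * sig p.2) = p.2
      rw [sig_u_mul, sig_sig, sub_add_cancel, u_mul_sig]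
  right_inv p := by
    apply Prod.ext
    · apply Prod.ext
      · change sc (u (p.1.1 + f1 p.1.2) * sig p.2) - f1 p.1.2 = p.1.1
        rw [sc_u_mul, sc_sig, add_zero, add_sub_cancel_right]
      · rfl
    · change u (sc p.2) * sig (u (p.1.1 + f1 p.1.2) * sig p.2) = p.2
      rw [sig_u_mul, sig_sig, u_mul_sig]
  continuous_toFun := by
    change Continuous fun p : (En n × ℝ) × SL =>
      (((sc p.2 - f1 p.1.1, p.1.1), u p.1.2 * sig p.2) : (ℝ × En n) × SL)
    have h1 : Continuous fun p : (En n × ℝ) × SL => sc p.2 := continuous_sc.comp continuous_snd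
    have h2 : Continuous fun p : (En n × ℝ) × SL => f1 p.1.1 := continuous_f1.comp (by fun_prop)
    have h3 : Continuous fun p : (En n × ℝ) × SL => u p.1.2 := continuous_u.comp (by fun_prop)
    have h4 : Continuous fun p : (En n × ℝ) × SL => sig p.2 := continuous_sig.comp continuous_snd
    fun_prop
  continuous_invFun := by
    change Continuous fun p : (ℝ × En n) × SL =>
      (((p.1.2, sc p.2), u (p.1.1 + f1 p.1.2) * sig p.2) : (En n × ℝ) × SL)
    have h1 : Continuous fun p : (ℝ × En n) × SL => sc p.2 := continuous_sc.comp continuous_snd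
    have h2 : Continuous fun p : (ℝ × En n) × SL => f1 p.1.2 := continuous_f1.comp (by fun_prop)
    have h3 : Continuous fun p : (ℝ × En n) × SL => u (p.1.1 + f1 p.1.2) :=
      continuous_u.comp (by fun_prop)
    have h4 : Continuous fun p : (ℝ × En n) × SL => sig p.2 := continuous_sig.comp continuous_snd
    fun_prop

lemma Phi_apply (p : L1 n) : Phi p = ((sc p.2 - f1 p.1.1, p.1.1), u p.1.2 * sig p.2) := rfl

/-- The common subgroup in `L₁`: elements `((w, t), u(s))`. -/
def p1 (w : En n) (t s : ℝ) : L1 n := ((w, t), u s)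

/-- The corresponding element of `L₂`. -/
def p2 (w : En n) (t s : ℝ) : L2 n := ((s - f1 w, w), u t)

/-- Equivariance of `Φ`. -/
lemma Phi_mul (w : En n) (t s : ℝ) (x : L1 n) : Phi (p1 w t s * x) = p2 w t s * Phi x := by
  change ((sc (u s * x.2) - f1 (w + rho (u t) x.1.1), w + rho (u t) x.1.1),
      u (t + x.1.2) * sig (u s * x.2)) =
    (((s - f1 w) + (sc x.2 - f1 x.1.1), w + rho (u t) x.1.1), u t * (u x.1.2 * sig x.2))
  rw [sc_u_mul, sig_u_mul, f1_add, f1_rho_u, u_add, mul_assoc]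
  congr 2
  ring

/-- The two actions on `X = L₂` agree on the common subgroup. -/
lemma act_p (w : En n) (t s : ℝ) :
    act (Phi (n := n)) (p1 w t s) = act (Homeomorph.refl (L2 n)) (p2 w t s) := by
  apply HG.ext
  intro y
  rw [act_ev, act_ev, Phi_mul, Homeomorph.apply_symm_apply]
  rfl

end Q8.Amalg
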