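import Pool.Agent.Q8.Amalg.Groups

/-!
Lie group structures given by one global chart.
-/

noncomputable section

namespace Q8.Amalg

open Topology Manifold

/-- A group with a global chart in which multiplication and inversion are analytic is a Lie
group. -/
theorem lieGroup_of_chart {M E : Type*} [Group M] [TopologicalSpace M] [NormedAddCommGroup E]
    [NormedSpace ℝ E] {e : M → E} (he : IsOpenEmbedding e) (m : E × E → E)
    (hm : ContDiffOn ℝ ⊤ m (Set.range e ×ˢ Set.range e)) (hme : ∀ x y, e (x * y) = m (e x, e y))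
    (i : E → E) (hi : ContDiffOn ℝ ⊤ i (Set.range e)) (hie : ∀ x, e x⁻¹ = i (e x)) :
    @LieGroup ℝ _ E _ E _ _ 𝓘(ℝ, E) ⊤ M _ _ he.singletonChartedSpace := by
  letI := he.singletonChartedSpace
  haveI := he.isManifold_singleton (I := 𝓘(ℝ, E)) (n := ⊤)
  have hce : ContMDiff 𝓘(ℝ, E) 𝓘(ℝ, E) ⊤ e := contMDiff_isOpenEmbedding he
  refine @LieGroup.mk ℝ _ E _ E _ _ 𝓘(ℝ, E) ⊤ M _ _ _ (@ContMDiffMul.mk ℝ _ E _ E _ _ 𝓘(ℝ, E) ⊤ M _ _ _ _ ?_) ?_
  · apply ContMDiff.of_comp_isOpenEmbedding (I' := 𝓘(ℝ, E)) he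
    have h1 : (e ∘ fun p : M × M => p.1 * p.2) = m ∘ (fun p : M × M => (e p.1, e p.2)) := by
      funext p; exact hme p.1 p.2
    rw [h1]
    apply ContMDiffOn.comp_contMDiff (t := Set.range e ×ˢ Set.range e) (I' := 𝓘(ℝ, E × E))
    · exact hm.contMDiffOn
    · exact (hce.comp contMDiff_fst).prodMk_space (hce.comp contMDiff_snd)
    · intro p; exact ⟨⟨_, rfl⟩, ⟨_, rfl⟩⟩
  · apply ContMDiff.of_comp_isOpenEmbedding (I' := 𝓘(ℝ, E)) he
    have h1 : (e ∘ fun p : M => p⁻¹) = i ∘ e := by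
      funext p; exact hie p
    rw [h1]
    apply ContMDiffOn.comp_contMDiff (t := Set.range e) (I' := 𝓘(ℝ, E))
    · exact hi.contMDiffOn
    · exact hce
    · intro p; exact ⟨_, rfl⟩

/-- the chart of `SL₂(ℝ)` -/
def kap (g : SL) : ℝ × ℝ × ℝ := (sc g, g 1 0, g 1 1)

/-- entry `a` in terms of the coordinates -/
def ea (p : ℝ × ℝ × ℝ) : ℝ := p.2.2 / (p.2.1 ^ 2 + p.2.2 ^ 2) + p.1 * p.2.1
/-- entry `b` in terms of the coordinates -/
def eb (p : ℝ × ℝ × ℝ) : ℝ := - p.2.1 / (p.2.1 ^ 2 + p.2.2 ^ 2) + p.1 * p.2.2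

/-- the domain of the coordinates -/
def dom : Set (ℝ × ℝ × ℝ) := {p | p.2.1 ^ 2 + p.2.2 ^ 2 ≠ 0}

lemma isOpen_dom : IsOpen dom := by
  have : Continuous fun p : ℝ × ℝ × ℝ => p.2.1 ^ 2 + p.2.2 ^ 2 := by fun_prop
  exact isOpen_ne_fun this continuous_const

lemma kap_mem (g : SL) : kap g ∈ dom := (nrm_pos g).ne'

lemma ea_kap (g : SL) : ea (kap g) = g 0 0 := by
  have h := (nrm_pos g).ne'
  have hd := SL_det g
  rw [nrm] at h
  simp only [ea, kap, sc, nrm]
  field_simp
  linear_combination (g 1 1) * (-hd)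

lemma eb_kap (g : SL) : eb (kap g) = g 0 1 := by
  have h := (nrm_pos g).ne'
  have hd := SL_det g
  rw [nrm] at h
  simp only [eb, kap, sc, nrm]
  field_simp
  linear_combination (g 1 0) * hd

/-- inverse of the chart on its domain -/
def kinv (p : dom) : SL := ⟨!![ea p.1, eb p.1; p.1.2.1, p.1.2.2], by
  have h : p.1.2.1 ^ 2 + p.1.2.2 ^ 2 ≠ 0 := p.2
  rw [Matrix.det_fin_two_of, ea, eb]
  field_simp
  ring⟩

/-- the homeomorphism `SL₂(ℝ) ≃ dom` -/
def kapHomeo : SL ≃ₜ dom where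
  toFun g := ⟨kap g, kap_mem g⟩
  invFun p := kinv p
  left_inv g := by
    apply SL_ext
    · exact ea_kap g
    · exact eb_kap g
    · rfl
    · rfl
  right_inv p := by
    apply Subtype.ext
    have h : p.1.2.1 ^ 2 + p.1.2.2 ^ 2 ≠ 0 := p.2
    apply Prod.ext
    · change sc (kinv p) = p.1.1
      rw [sc, nrm]
      change (ea p.1 * p.1.2.1 + eb p.1 * p.1.2.2) / (p.1.2.1 ^ 2 + p.1.2.2 ^ 2) = p.1.1
      rw [ea, eb]
      field_simp
      ring
    · rfl
  continuous_toFun := by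
    apply Continuous.subtype_mk
    exact continuous_sc.prodMk ((continuous_entry 1 0).prodMk (continuous_entry 1 1))
  continuous_invFun := by
    apply Continuous.subtype_mk
    have h1 : Continuous fun p : dom => p.1.2.1 ^ 2 + p.1.2.2 ^ 2 := by fun_prop
    have h2 : Continuous fun p : dom => ea p.1 := by
      unfold ea
      exact ((by fun_prop : Continuous fun p : dom => p.1.2.2).div h1 (fun p => p.2)).add
        (by fun_prop)
    have h3 : Continuous fun p : dom => eb p.1 := by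
      unfold eb
      exact ((by fun_prop : Continuous fun p : dom => - p.1.2.1).div h1 (fun p => p.2)).add
        (by fun_prop)
    apply continuous_matrix
    intro i j
    fin_cases i <;> fin_cases j
    · exact h2
    · exact h3
    · exact (by fun_prop : Continuous fun p : dom => p.1.2.1)
    · exact (by fun_prop : Continuous fun p : dom => p.1.2.2)

lemma isOpenEmbedding_kap : IsOpenEmbedding kap :=
  isOpen_dom.isOpenEmbedding_subtypeVal.comp kapHomeo.isOpenEmbedding

lemma range_kap : Set.range kap = dom := by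
  ext p
  constructor
  · rintro ⟨g, rfl⟩; exact kap_mem g
  · intro hp
    refine ⟨kinv ⟨p, hp⟩, ?_⟩
    exact congrArg Subtype.val (kapHomeo.right_inv ⟨p, hp⟩)

lemma contDiffOn_ea : ContDiffOn ℝ ⊤ ea dom := by
  unfold ea
  exact (ContDiffOn.div (by fun_prop) (by fun_prop) (fun p hp => hp)).add (by fun_prop)

lemma contDiffOn_eb : ContDiffOn ℝ ⊤ eb dom := by
  unfold eb
  exact (ContDiffOn.div (by fun_prop) (by fun_prop) (fun p hp => hp)).add (by fun_prop)

end Q8.Amalg
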