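import Pool.Agent.Q8.Amalg.Lie

/-!
The Lie group structures of `N₁, N₂, L₁, L₂`.
-/

noncomputable section

namespace Q8.Amalg

open Topology Manifold

/-- multiplication of `SL₂(ℝ)` in coordinates -/
def mC (p : (ℝ × ℝ × ℝ) × (ℝ × ℝ × ℝ)) : ℝ := p.1.2.1 * ea p.2 + p.1.2.2 * p.2.2.1
def mD (p : (ℝ × ℝ × ℝ) × (ℝ × ℝ × ℝ)) : ℝ := p.1.2.1 * eb p.2 + p.1.2.2 * p.2.2.2
def mA (p : (ℝ × ℝ × ℝ) × (ℝ × ℝ × ℝ)) : ℝ := ea p.1 * ea p.2 + eb p.1 * p.2.2.1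
def mB (p : (ℝ × ℝ × ℝ) × (ℝ × ℝ × ℝ)) : ℝ := ea p.1 * eb p.2 + eb p.1 * p.2.2.2
def mulS (p : (ℝ × ℝ × ℝ) × (ℝ × ℝ × ℝ)) : ℝ × ℝ × ℝ :=
  ((mA p * mC p + mB p * mD p) / (mC p ^ 2 + mD p ^ 2), mC p, mD p)

lemma mC_kap (g h : SL) : mC (kap g, kap h) = (g * h) 1 0 := by
  rw [mC, ea_kap, SL_mul_apply]; rfl
lemma mD_kap (g h : SL) : mD (kap g, kap h) = (g * h) 1 1 := by
  rw [mD, eb_kap, SL_mul_apply]; rfl
lemma mA_kap (g h : SL) : mA (kap g, kap h) = (g * h) 0 0 := by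
  rw [mA, ea_kap, ea_kap, eb_kap, SL_mul_apply]; rfl
lemma mB_kap (g h : SL) : mB (kap g, kap h) = (g * h) 0 1 := by
  rw [mB, ea_kap, eb_kap, eb_kap, SL_mul_apply]; rfl

lemma kap_mul (g h : SL) : kap (g * h) = mulS (kap g, kap h) := by
  rw [mulS, mC_kap, mD_kap, mA_kap, mB_kap]; rfl

lemma mulS_den {p : (ℝ × ℝ × ℝ) × (ℝ × ℝ × ℝ)} (hp : p ∈ dom ×ˢ dom) :
    mC p ^ 2 + mD p ^ 2 ≠ 0 := by
  obtain ⟨h1, h2⟩ := hp
  rw [← range_kap] at h1 h2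
  obtain ⟨g, hg⟩ := h1
  obtain ⟨h, hh⟩ := h2
  have : p = (kap g, kap h) := Prod.ext hg.symm hh.symm
  rw [this, mC_kap, mD_kap]
  exact (nrm_pos (g * h)).ne'

lemma contDiffOn_mulS : ContDiffOn ℝ ⊤ mulS (dom ×ˢ dom) := by
  have a1 : ContDiffOn ℝ ⊤ (fun p : (ℝ × ℝ × ℝ) × (ℝ × ℝ × ℝ) => ea p.1) (dom ×ˢ dom) :=
    contDiffOn_ea.comp contDiffOn_fst (fun p hp => hp.1)
  have a2 : ContDiffOn ℝ ⊤ (fun p : (ℝ × ℝ × ℝ) × (ℝ × ℝ × ℝ) => ea p.2) (dom ×ˢ dom) :=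
    contDiffOn_ea.comp contDiffOn_snd (fun p hp => hp.2)
  have b1 : ContDiffOn ℝ ⊤ (fun p : (ℝ × ℝ × ℝ) × (ℝ × ℝ × ℝ) => eb p.1) (dom ×ˢ dom) :=
    contDiffOn_eb.comp contDiffOn_fst (fun p hp => hp.1)
  have b2 : ContDiffOn ℝ ⊤ (fun p : (ℝ × ℝ × ℝ) × (ℝ × ℝ × ℝ) => eb p.2) (dom ×ˢ dom) :=
    contDiffOn_eb.comp contDiffOn_snd (fun p hp => hp.2)
  have hC : ContDiffOn ℝ ⊤ mC (dom ×ˢ dom) := by
    unfold mC
    exact ((by fun_prop : ContDiffOn ℝ ⊤ (fun p : (ℝ × ℝ × ℝ) × (ℝ × ℝ × ℝ) => p.1.2.1)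
      (dom ×ˢ dom)).mul a2).add (by fun_prop)
  have hD : ContDiffOn ℝ ⊤ mD (dom ×ˢ dom) := by
    unfold mD
    exact ((by fun_prop : ContDiffOn ℝ ⊤ (fun p : (ℝ × ℝ × ℝ) × (ℝ × ℝ × ℝ) => p.1.2.1)
      (dom ×ˢ dom)).mul b2).add (by fun_prop)
  have hA : ContDiffOn ℝ ⊤ mA (dom ×ˢ dom) := by
    unfold mA
    exact (a1.mul a2).add (b1.mul (by fun_prop))
  have hB : ContDiffOn ℝ ⊤ mB (dom ×ˢ dom) := by
    unfold mB
    exact (a1.mul b2).add (b1.mul (by fun_prop))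
  unfold mulS
  exact ContDiffOn.prodMk (((hA.mul hC).add (hB.mul hD)).div ((hC.pow 2).add (hD.pow 2))
    (fun p hp => mulS_den hp)) (hC.prodMk hD)

/-- inversion of `SL₂(ℝ)` in coordinates -/
def invS (p : ℝ × ℝ × ℝ) : ℝ × ℝ × ℝ :=
  ((p.2.2 * -p.2.1 + -eb p * ea p) / ((-p.2.1) ^ 2 + ea p ^ 2), -p.2.1, ea p)

lemma kap_inv (g : SL) : kap g⁻¹ = invS (kap g) := by
  rw [invS, ea_kap, eb_kap]
  rw [kap, sc, nrm, SL_inv00, SL_inv01, SL_inv10, SL_inv11]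
  rfl

lemma invS_den {p : ℝ × ℝ × ℝ} (hp : p ∈ dom) : (-p.2.1) ^ 2 + ea p ^ 2 ≠ 0 := by
  rw [← range_kap] at hp
  obtain ⟨g, rfl⟩ := hp
  rw [ea_kap]
  have := (nrm_pos g⁻¹).ne'
  rwa [nrm, SL_inv10, SL_inv11] at this

lemma contDiffOn_invS : ContDiffOn ℝ ⊤ invS dom := by
  have a1 := contDiffOn_ea
  have b1 := contDiffOn_eb
  unfold invS
  apply ContDiffOn.prodMk
  · apply ContDiffOn.div
    · exact (by fun_prop : ContDiffOn ℝ ⊤ (fun p : ℝ × ℝ × ℝ => p.2.2 * -p.2.1) dom).add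
        (b1.neg.mul a1)
    · exact (by fun_prop : ContDiffOn ℝ ⊤ (fun p : ℝ × ℝ × ℝ => (-p.2.1) ^ 2) dom).add (a1.pow 2)
    · intro p hp; exact invS_den hp
  · exact (by fun_prop : ContDiffOn ℝ ⊤ (fun p : ℝ × ℝ × ℝ => -p.2.1) dom).prodMk a1

variable {n : ℕ}

/-- chart of `L₁` -/
def cL1 (p : L1 n) : (En n × ℝ) × (ℝ × ℝ × ℝ) := (p.1, kap p.2)
/-- chart of `L₂` -/
def cL2 (p : L2 n) : (ℝ × En n) × (ℝ × ℝ × ℝ) := (p.1, kap p.2)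
/-- chart of `N₁` -/
def cN1 (p : N1 n) : En n × ℝ := p
/-- chart of `N₂` -/
def cN2 (p : N2 n) : ℝ × En n := p

lemma oe_cL1 : IsOpenEmbedding (cL1 (n := n)) :=
  (Topology.IsOpenEmbedding.id (X := En n × ℝ)).prodMap isOpenEmbedding_kap
lemma oe_cL2 : IsOpenEmbedding (cL2 (n := n)) :=
  (Topology.IsOpenEmbedding.id (X := ℝ × En n)).prodMap isOpenEmbedding_kap
lemma oe_cN1 : IsOpenEmbedding (cN1 (n := n)) := Topology.IsOpenEmbedding.id (X := En n × ℝ)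
lemma oe_cN2 : IsOpenEmbedding (cN2 (n := n)) := Topology.IsOpenEmbedding.id (X := ℝ × En n)

lemma range_cL1 : Set.range (cL1 (n := n)) ⊆ {p | p.2 ∈ dom} := by
  rintro _ ⟨p, rfl⟩; exact kap_mem p.2
lemma range_cL2 : Set.range (cL2 (n := n)) ⊆ {p | p.2 ∈ dom} := by
  rintro _ ⟨p, rfl⟩; exact kap_mem p.2

instance : ChartedSpace ((En n × ℝ) × (ℝ × ℝ × ℝ)) (L1 n) := oe_cL1.singletonChartedSpace
instance : ChartedSpace ((ℝ × En n) × (ℝ × ℝ × ℝ)) (L2 n) := oe_cL2.singletonChartedSpace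
instance : ChartedSpace (En n × ℝ) (N1 n) := oe_cN1.singletonChartedSpace
instance : ChartedSpace (ℝ × En n) (N2 n) := oe_cN2.singletonChartedSpace

/-- action in coordinates -/
def rhoS (p : (ℝ × ℝ × ℝ) × En n) : En n := subst p.1.2.2 (-eb p.1) (-p.1.2.1) (ea p.1) p.2

lemma rhoS_kap (g : SL) (w : En n) : rhoS (kap g, w) = rho g w := by
  rw [rhoS, rho, ea_kap, eb_kap]; rfl

lemma contDiffOn_rhoS : ContDiffOn ℝ ⊤ (rhoS (n := n)) {p | p.1 ∈ dom} := by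
  have a1 : ContDiffOn ℝ ⊤ (fun p : (ℝ × ℝ × ℝ) × En n => ea p.1) {p | p.1 ∈ dom} :=
    contDiffOn_ea.comp contDiffOn_fst (fun p hp => hp)
  have b1 : ContDiffOn ℝ ⊤ (fun p : (ℝ × ℝ × ℝ) × En n => eb p.1) {p | p.1 ∈ dom} :=
    contDiffOn_eb.comp contDiffOn_fst (fun p hp => hp)
  have h : rhoS (n := n) =
      (fun p : (ℝ × ℝ × ℝ × ℝ) × En n => subst p.1.1 p.1.2.1 p.1.2.2.1 p.1.2.2.2 p.2) ∘
      (fun p : (ℝ × ℝ × ℝ) × En n => ((p.1.2.2, -eb p.1, -p.1.2.1, ea p.1), p.2)) := rfl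
  rw [h]
  apply contDiff_subst.comp_contDiffOn
  apply ContDiffOn.prodMk _ contDiffOn_snd
  exact (by fun_prop : ContDiffOn ℝ ⊤ (fun p : (ℝ × ℝ × ℝ) × En n => p.1.2.2)
    {p | p.1 ∈ dom}).prodMk (b1.neg.prodMk ((by fun_prop : ContDiffOn ℝ ⊤
      (fun p : (ℝ × ℝ × ℝ) × En n => -p.1.2.1) {p | p.1 ∈ dom}).prodMk a1))

/-- `ρ(u(t)) w` is analytic in `(t, w)` -/
lemma contDiff_rhou : ContDiff ℝ ⊤ (fun p : ℝ × En n => rho (u p.1) p.2) := by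
  have h : (fun p : ℝ × En n => rho (u p.1) p.2) =
      (fun p : (ℝ × ℝ × ℝ × ℝ) × En n => subst p.1.1 p.1.2.1 p.1.2.2.1 p.1.2.2.2 p.2) ∘
      (fun p : ℝ × En n => (((1 : ℝ), -p.1, -(0 : ℝ), (1 : ℝ)), p.2)) := rfl
  rw [h]
  exact contDiff_subst.comp (by fun_prop)

instance : LieGroup 𝓘(ℝ, En n × ℝ) ⊤ (N1 n) := by
  apply lieGroup_of_chart oe_cN1
    (fun p : (En n × ℝ) × (En n × ℝ) => (p.1.1 + rho (u p.1.2) p.2.1, p.1.2 + p.2.2)) _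
    (fun x y => rfl)
    (fun p : En n × ℝ => (- rho (u (-p.2)) p.1, - p.2)) _ (fun x => rfl)
  · apply ContDiff.contDiffOn
    have h := (contDiff_rhou (n := n)).comp
      (f := fun p : (En n × ℝ) × (En n × ℝ) => (p.1.2, p.2.1)) (by fun_prop)
    have h' : ContDiff ℝ ⊤ fun p : (En n × ℝ) × (En n × ℝ) => rho (u p.1.2) p.2.1 := h
    exact ((by fun_prop : ContDiff ℝ ⊤ fun p : (En n × ℝ) × (En n × ℝ) => p.1.1).add h').prodMk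
      (by fun_prop)
  · apply ContDiff.contDiffOn
    have h := (contDiff_rhou (n := n)).comp
      (f := fun p : En n × ℝ => (-p.2, p.1)) (by fun_prop)
    have h' : ContDiff ℝ ⊤ fun p : En n × ℝ => rho (u (-p.2)) p.1 := h
    exact h'.neg.prodMk (by fun_prop)

instance : LieGroup 𝓘(ℝ, ℝ × En n) ⊤ (N2 n) := by
  apply lieGroup_of_chart oe_cN2
    (fun p : (ℝ × En n) × (ℝ × En n) => (p.1.1 + p.2.1, p.1.2 + p.2.2)) _
    (fun x y => rfl)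
    (fun p : ℝ × En n => (- p.1, - p.2)) _ (fun x => rfl)
  · apply ContDiff.contDiffOn; fun_prop
  · apply ContDiff.contDiffOn; fun_prop

instance : LieGroup 𝓘(ℝ, (En n × ℝ) × (ℝ × ℝ × ℝ)) ⊤ (L1 n) := by
  apply lieGroup_of_chart oe_cL1
    (fun p : ((En n × ℝ) × (ℝ × ℝ × ℝ)) × ((En n × ℝ) × (ℝ × ℝ × ℝ)) =>
      ((p.1.1.1 + rho (u p.1.1.2) p.2.1.1, p.1.1.2 + p.2.1.2), mulS (p.1.2, p.2.2))) _ _
    (fun p : (En n × ℝ) × (ℝ × ℝ × ℝ) => ((- rho (u (-p.1.2)) p.1.1, - p.1.2), invS p.2)) _ _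
  · have h := (contDiff_rhou (n := n)).comp
      (f := fun p : ((En n × ℝ) × (ℝ × ℝ × ℝ)) × ((En n × ℝ) × (ℝ × ℝ × ℝ)) =>
        (p.1.1.2, p.2.1.1)) (by fun_prop)
    have h' : ContDiff ℝ ⊤ fun p : ((En n × ℝ) × (ℝ × ℝ × ℝ)) × ((En n × ℝ) × (ℝ × ℝ × ℝ)) =>
      rho (u p.1.1.2) p.2.1.1 := h
    apply ContDiffOn.prodMk
    · exact (((by fun_prop : ContDiff ℝ ⊤ fun p : ((En n × ℝ) × (ℝ × ℝ × ℝ)) ×
        ((En n × ℝ) × (ℝ × ℝ × ℝ)) => p.1.1.1).add h').prodMk (by fun_prop)).contDiffOn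
    · apply contDiffOn_mulS.comp (f := fun p : ((En n × ℝ) × (ℝ × ℝ × ℝ)) ×
        ((En n × ℝ) × (ℝ × ℝ × ℝ)) => (p.1.2, p.2.2))
      · apply ContDiff.contDiffOn; fun_prop
      · rintro p ⟨h1, h2⟩
        exact ⟨range_cL1 h1, range_cL1 h2⟩
  · intro x y
    apply Prod.ext
    · rfl
    · exact kap_mul x.2 y.2
  · apply ContDiffOn.prodMk
    · have h := (contDiff_rhou (n := n)).comp
        (f := fun p : (En n × ℝ) × (ℝ × ℝ × ℝ) => (-p.1.2, p.1.1)) (by fun_prop)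
      have h' : ContDiff ℝ ⊤ fun p : (En n × ℝ) × (ℝ × ℝ × ℝ) => rho (u (-p.1.2)) p.1.1 := h
      exact (h'.neg.prodMk (by fun_prop)).contDiffOn
    · exact contDiffOn_invS.comp contDiffOn_snd (fun p hp => range_cL1 hp)
  · intro x
    apply Prod.ext
    · rfl
    · exact kap_inv x.2

instance : LieGroup 𝓘(ℝ, (ℝ × En n) × (ℝ × ℝ × ℝ)) ⊤ (L2 n) := by
  apply lieGroup_of_chart oe_cL2
    (fun p : ((ℝ × En n) × (ℝ × ℝ × ℝ)) × ((ℝ × En n) × (ℝ × ℝ × ℝ)) =>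
      ((p.1.1.1 + p.2.1.1, p.1.1.2 + rhoS (p.1.2, p.2.1.2)), mulS (p.1.2, p.2.2))) _ _
    (fun p : (ℝ × En n) × (ℝ × ℝ × ℝ) => ((- p.1.1, - rhoS (invS p.2, p.1.2)), invS p.2)) _ _
  · apply ContDiffOn.prodMk
    · apply ContDiffOn.prodMk
      · apply ContDiff.contDiffOn; fun_prop
      · apply ContDiffOn.add
        · apply ContDiff.contDiffOn; fun_prop
        · apply contDiffOn_rhoS.comp (f := fun p : ((ℝ × En n) × (ℝ × ℝ × ℝ)) ×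
            ((ℝ × En n) × (ℝ × ℝ × ℝ)) => (p.1.2, p.2.1.2))
          · apply ContDiff.contDiffOn; fun_prop
          · rintro p ⟨h1, h2⟩
            exact range_cL2 h1
    · apply contDiffOn_mulS.comp (f := fun p : ((ℝ × En n) × (ℝ × ℝ × ℝ)) ×
        ((ℝ × En n) × (ℝ × ℝ × ℝ)) => (p.1.2, p.2.2))
      · apply ContDiff.contDiffOn; fun_prop
      · rintro p ⟨h1, h2⟩
        exact ⟨range_cL2 h1, range_cL2 h2⟩
  · intro x y
    apply Prod.ext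
    · apply Prod.ext
      · rfl
      · change x.1.2 + rho x.2 y.1.2 = x.1.2 + rhoS (kap x.2, y.1.2)
        rw [rhoS_kap]
    · exact kap_mul x.2 y.2
  · have hi : ContDiffOn ℝ ⊤ (fun p : (ℝ × En n) × (ℝ × ℝ × ℝ) => invS p.2)
        (Set.range (cL2 (n := n))) :=
      contDiffOn_invS.comp contDiffOn_snd (fun p hp => range_cL2 hp)
    apply ContDiffOn.prodMk _ hi
    apply ContDiffOn.prodMk
    · apply ContDiff.contDiffOn; fun_prop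
    · apply ContDiffOn.neg
      apply contDiffOn_rhoS.comp (f := fun p : (ℝ × En n) × (ℝ × ℝ × ℝ) => (invS p.2, p.1.2))
      · exact hi.prodMk (by fun_prop)
      · rintro _ ⟨p, rfl⟩
        change invS (kap p.2) ∈ dom
        rw [← kap_inv]
        exact kap_mem _
  · intro x
    apply Prod.ext
    · apply Prod.ext
      · rfl
      · change - rho x.2⁻¹ x.1.2 = - rhoS (invS (kap x.2), x.1.2)
        rw [← kap_inv, rhoS_kap]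
    · exact kap_inv x.2

end Q8.Amalg
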