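import Mathlib

/-!
Binary forms of degree `n`, as coefficient vectors `Fin (n+1) → ℝ`, with substitution of linear
forms.
-/

noncomputable section

namespace Q8.Amalg

open Finset

/-- Coefficient vectors of binary forms of degree `n`. -/
abbrev En (n : ℕ) := Fin (n + 1) → ℝ

/-- The value `∑ w_i x^i y^(n-i)` of the binary form with coefficients `w`. -/
def T {n : ℕ} (w : En n) (x y : ℝ) : ℝ := ∑ i : Fin (n + 1), w i * (x ^ (i : ℕ) * y ^ (n - i))

lemma T_add {n : ℕ} (w w' : En n) (x y : ℝ) : T (w + w') x y = T w x y + T w' x y := by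
  simp [T, add_mul, sum_add_distrib]

lemma T_smul {n : ℕ} (c : ℝ) (w : En n) (x y : ℝ) : T (c • w) x y = c * T w x y := by
  simp [T, mul_sum, mul_assoc]

lemma T_zero {n : ℕ} (x y : ℝ) : T (0 : En n) x y = 0 := by simp [T]

lemma T_homog {n : ℕ} (w : En n) (s x y : ℝ) : T w (s * x) (s * y) = s ^ n * T w x y := by
  rw [T, T, mul_sum]
  apply sum_congr rfl
  intro i _
  have : s ^ n = s ^ (i : ℕ) * s ^ (n - i) := by
    rw [← pow_add]; congr 1; have := i.2; omega
  rw [this, mul_pow, mul_pow]; ring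

/-- functions which are binary forms of degree `n` -/
def IsForm (n : ℕ) (F : ℝ → ℝ → ℝ) : Prop :=
  ∃ b : ℕ → ℝ, ∀ x y, F x y = ∑ i ∈ range (n + 1), b i * (x ^ i * y ^ (n - i))

lemma IsForm.linear_mul {n : ℕ} {F : ℝ → ℝ → ℝ} (h : IsForm n F) (α β : ℝ) :
    IsForm (n + 1) (fun x y => (α * x + β * y) * F x y) := by
  obtain ⟨b, hb⟩ := h
  refine ⟨fun j => α * (if j = 0 then 0 else b (j - 1)) + β * (if j ≤ n then b j else 0), ?_⟩
  intro x y
  simp only [hb]
  have h1 : ∑ j ∈ range (n + 1 + 1), (α * (if j = 0 then 0 else b (j - 1)) +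
      β * (if j ≤ n then b j else 0)) * (x ^ j * y ^ (n + 1 - j)) =
      ∑ j ∈ range (n + 1 + 1), α * (if j = 0 then 0 else b (j - 1)) * (x ^ j * y ^ (n + 1 - j)) +
      ∑ j ∈ range (n + 1 + 1), β * (if j ≤ n then b j else 0) * (x ^ j * y ^ (n + 1 - j)) := by
    rw [← sum_add_distrib]
    apply sum_congr rfl
    intro j _
    ring
  rw [h1, sum_range_succ' _ (n + 1)]
  rw [sum_range_succ (fun j => β * (if j ≤ n then b j else 0) * (x ^ j * y ^ (n + 1 - j))) (n + 1)]
  simp only [if_true, mul_zero, zero_mul, add_zero, Nat.add_eq_zero_iff, one_ne_zero, and_false,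
    if_false, Nat.add_sub_cancel, if_neg (by omega : ¬ n + 1 ≤ n)]
  rw [add_mul, mul_sum, mul_sum]
  congr 1
  · apply sum_congr rfl
    intro j hj
    rw [mem_range] at hj
    rw [pow_succ, show n + 1 - (j + 1) = n - j by omega]
    ring
  · apply sum_congr rfl
    intro j hj
    rw [mem_range] at hj
    rw [if_pos (by omega), show n + 1 - j = (n - j) + 1 by omega, pow_succ]
    ring

lemma IsForm.pow_mul_pow (α β γ δ : ℝ) (k m : ℕ) :
    IsForm (k + m) (fun x y => (α * x + β * y) ^ k * (γ * x + δ * y) ^ m) := by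
  induction k with
  | zero =>
    induction m with
    | zero => exact ⟨fun _ => 1, by intro x y; simp⟩
    | succ m ih =>
      have := ih.linear_mul γ δ
      have e : (fun x y => (α * x + β * y) ^ 0 * (γ * x + δ * y) ^ (m + 1)) =
          (fun x y => (γ * x + δ * y) * ((α * x + β * y) ^ 0 * (γ * x + δ * y) ^ m)) := by
        funext x y; ring
      rw [e]
      exact this
  | succ k ih =>
    have := ih.linear_mul α β
    have e : (fun x y => (α * x + β * y) ^ (k + 1) * (γ * x + δ * y) ^ m) =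
        (fun x y => (α * x + β * y) * ((α * x + β * y) ^ k * (γ * x + δ * y) ^ m)) := by
      funext x y; ring
    rw [show k + 1 + m = k + m + 1 by ring, e]
    exact this

lemma IsForm.toT {n : ℕ} {F : ℝ → ℝ → ℝ} (h : IsForm n F) : ∃ b : En n, ∀ x y, F x y = T b x y := by
  obtain ⟨b, hb⟩ := h
  refine ⟨fun i => b i, fun x y => ?_⟩
  rw [hb, T, sum_range]

/-- Substitution exists. -/
lemma exists_subst {n : ℕ} (w : En n) (a b c d : ℝ) :
    ∃ w' : En n, ∀ x y, T w' x y = T w (a * x + b * y) (c * x + d * y) := by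
  have h : ∀ i : Fin (n + 1), ∃ w' : En n, ∀ x y,
      T w' x y = (a * x + b * y) ^ (i : ℕ) * (c * x + d * y) ^ (n - i) := by
    intro i
    have h1 := IsForm.pow_mul_pow a b c d i (n - i)
    rw [show (i : ℕ) + (n - i) = n by have := i.2; omega] at h1
    obtain ⟨w', hw'⟩ := h1.toT
    exact ⟨w', fun x y => (hw' x y).symm⟩
  choose f hf using h
  refine ⟨∑ i, w i • f i, fun x y => ?_⟩
  have key : ∀ s : Finset (Fin (n + 1)), T (∑ i ∈ s, w i • f i) x y =
      ∑ i ∈ s, w i * ((a * x + b * y) ^ (i : ℕ) * (c * x + d * y) ^ (n - i)) := by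
    classical
    intro s
    induction s using Finset.induction_on with
    | empty => simp [T_zero]
    | insert i s hi ih => rw [sum_insert hi, sum_insert hi, T_add, T_smul, hf, ih]
  exact key univ

/-- the evaluation matrix at the points `(i, 1)` -/
def ev (n : ℕ) : En n →ₗ[ℝ] En n where
  toFun w := fun i => T w (i : ℝ) 1
  map_add' w w' := by ext i; exact T_add w w' _ _
  map_smul' c w := by ext i; exact T_smul c w _ _

lemma ev_apply {n : ℕ} (w : En n) (i : Fin (n + 1)) : ev n w i = T w (i : ℝ) 1 := rfl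

lemma ev_injective (n : ℕ) : Function.Injective (ev n) := by
  rw [injective_iff_map_eq_zero]
  intro w hw
  have h1 : (Matrix.vandermonde (fun i : Fin (n + 1) => ((i : ℕ) : ℝ))).mulVec w = 0 := by
    ext i
    have := congrFun hw i
    rw [ev_apply, T] at this
    simp only [one_pow, mul_one, Pi.zero_apply] at this
    rw [Matrix.mulVec, dotProduct, Pi.zero_apply, ← this]
    apply sum_congr rfl
    intro j _
    rw [Matrix.vandermonde_apply, mul_comm]
  have hdet : (Matrix.vandermonde (fun i : Fin (n + 1) => ((i : ℕ) : ℝ))).det ≠ 0 := by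
    rw [Matrix.det_vandermonde_ne_zero_iff]
    intro i j hij
    simp only [Nat.cast_inj] at hij
    exact Fin.ext hij
  exact Matrix.eq_zero_of_mulVec_eq_zero hdet h1

/-- the evaluation equivalence -/
def evEquiv (n : ℕ) : En n ≃ₗ[ℝ] En n := LinearEquiv.ofInjectiveEndo (ev n) (ev_injective n)

lemma evEquiv_apply {n : ℕ} (w : En n) : evEquiv n w = ev n w := rfl

/-- A form is determined by its values. -/
lemma T_injective {n : ℕ} {w w' : En n} (h : ∀ x y, T w x y = T w' x y) : w = w' := by
  apply ev_injective n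
  ext i
  exact h _ _

/-- Substitution: `T (subst w a b c d) x y = T w (a x + b y) (c x + d y)`. -/
def subst {n : ℕ} (a b c d : ℝ) (w : En n) : En n :=
  (evEquiv n).symm (fun i => T w (a * i + b * 1) (c * i + d * 1))

lemma T_subst {n : ℕ} (a b c d : ℝ) (w : En n) (x y : ℝ) :
    T (subst a b c d w) x y = T w (a * x + b * y) (c * x + d * y) := by
  obtain ⟨w', hw'⟩ := exists_subst w a b c d
  have : subst a b c d w = w' := by
    rw [subst, LinearEquiv.symm_apply_eq, evEquiv_apply]
    ext i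
    rw [ev_apply, hw']
  rw [this, hw']

lemma subst_add {n : ℕ} (a b c d : ℝ) (w w' : En n) :
    subst a b c d (w + w') = subst a b c d w + subst a b c d w' := by
  apply T_injective
  intro x y
  rw [T_add, T_subst, T_subst, T_subst, T_add]

lemma subst_smul {n : ℕ} (a b c d r : ℝ) (w : En n) :
    subst a b c d (r • w) = r • subst a b c d w := by
  apply T_injective
  intro x y
  rw [T_smul, T_subst, T_subst, T_smul]

lemma subst_zero {n : ℕ} (a b c d : ℝ) : subst a b c d (0 : En n) = 0 := by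
  apply T_injective
  intro x y
  rw [T_subst, T_zero, T_zero]

lemma subst_neg {n : ℕ} (a b c d : ℝ) (w : En n) : subst a b c d (-w) = - subst a b c d w := by
  have := subst_smul a b c d (-1) w
  simpa using this

lemma subst_id {n : ℕ} (w : En n) : subst 1 0 0 1 w = w := by
  apply T_injective
  intro x y
  rw [T_subst]
  congr 1 <;> ring

lemma contDiff_T {n : ℕ} : ContDiff ℝ ⊤ (fun p : En n × ℝ × ℝ => T p.1 p.2.1 p.2.2) := by
  unfold T
  fun_prop

lemma contDiff_subst {n : ℕ} :
    ContDiff ℝ ⊤ (fun p : (ℝ × ℝ × ℝ × ℝ) × En n => subst p.1.1 p.1.2.1 p.1.2.2.1 p.1.2.2.2 p.2) := by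
  unfold subst
  have h1 : ContDiff ℝ ⊤ (fun v : En n => (evEquiv n).symm v) :=
    ((evEquiv n).symm.toContinuousLinearEquiv).contDiff
  apply h1.comp
  rw [contDiff_pi]
  intro i
  exact contDiff_T.comp (f := fun p : (ℝ × ℝ × ℝ × ℝ) × En n =>
    (p.2, p.1.1 * (i : ℝ) + p.1.2.1 * 1, p.1.2.2.1 * (i : ℝ) + p.1.2.2.2 * 1)) (by fun_prop)

end Q8.Amalg
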